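import Mathlib

universe u

namespace Pool.Agent.MP_3d7de8_lc

open FirstOrder

/-- Function symbols of the language of `K`-algebras: `0`, `-`, one unary symbol for every
scalar, `+` and the product. -/
inductive AlgFunc (K : Type u) : ℕ → Type u
  | zero : AlgFunc K 0
  | neg : AlgFunc K 1
  | smul (c : K) : AlgFunc K 1
  | add : AlgFunc K 2
  | mul : AlgFunc K 2

/-- The first-order language of (not necessarily unital) `K`-algebras. -/
def algLang (K : Type u) : FirstOrder.Language.{u, 0} where
  Functions := AlgFunc K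
  Relations := fun _ => Empty

section

variable (K : Type u) [Field K] (A : Type u) [NonUnitalRing A] [Module K A]

/-- An algebra as a structure for `algLang K`. -/
instance algStructure : (algLang K).Structure A where
  funMap := fun {_} f v =>
    match f, v with
    | .zero, _ => 0
    | .neg, v => -v 0
    | .smul c, v => c • v 0
    | .add, v => v 0 + v 1
    | .mul, v => v 0 * v 1
  RelMap := fun {_} r _ => r.elim

/-- The complete type of a tuple: all formulas that it satisfies. -/
def tp {m : ℕ} (μ : Fin m → A) : Set ((algLang K).Formula (Fin m)) :=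
  {φ | φ.Realize μ}

/-- Tuples with the same complete type are conjugate under an algebra automorphism. -/
def LogicallyHomogeneous : Prop :=
  ∀ m : ℕ, 1 ≤ m → ∀ μ₁ μ₂ : Fin m → A, tp K A μ₁ = tp K A μ₂ →
    ∃ σ : A →ₙₐ[K] A, Function.Bijective σ ∧ ∀ j, σ (μ₁ j) = μ₂ j

/-- The `K`-span of the products `a * b` with `a ∈ P`, `b ∈ Q`. -/
def spanMul (P Q : Submodule K A) : Submodule K A :=
  Submodule.span K {z | ∃ a ∈ P, ∃ b ∈ Q, z = a * b}

/-- `algPow K A k` is `A ^ k` for `k ≥ 1`: `A ^ 1 = A`, and `A ^ (k + 2)` is the sum of the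
`A ^ i * A ^ j` over `i + j = k + 2`, `i, j ≥ 1`. -/
noncomputable def algPow : ℕ → Submodule K A
  | 0 => ⊤
  | 1 => ⊤
  | k + 2 => ⨆ i : Fin (k + 1), spanMul K A (algPow (i + 1)) (algPow (k + 1 - i))

/-- `A ^ (0) = A`, `A ^ (k + 1) = A ^ (k) * A ^ (k)`. -/
def derivedPow : ℕ → Submodule K A
  | 0 => ⊤
  | k + 1 => spanMul K A (derivedPow k) (derivedPow k)

end

/-- `H` is the free algebra on the generators `x` in the class `P` of associative `K`-algebras:
`H` lies in `P`, and each map of the generators to an algebra in `P` extends to exactly one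
homomorphism. -/
structure IsFreeIn (K : Type u) [Field K]
    (P : ∀ (A : Type u) [NonUnitalRing A] [Module K A], Prop)
    (H : Type u) [NonUnitalRing H] [Module K H] {r : ℕ} (x : Fin r → H) : Prop where
  mem : P H
  lift : ∀ (B : Type u) [NonUnitalRing B] [Module K B] [IsScalarTower K B B]
    [SMulCommClass K B B], P B → ∀ y : Fin r → B, ∃! f : H →ₙₐ[K] B, ∀ i, f (x i) = y i

end Pool.Agent.MP_3d7de8_lc
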