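import Pool.Agent.MP_3d7de8_lc.Free

universe u

namespace Pool.Agent.MP_3d7de8_lc

section Aux

variable {K : Type u} [Field K] {A : Type u} [NonUnitalRing A] [Module K A]
  [IsScalarTower K A A] [SMulCommClass K A A]

theorem exists_lpow_preimage {B : Type u} [NonUnitalRing B] [Module K B] [IsScalarTower K B B]
    [SMulCommClass K B B] (f : B →ₙₐ[K] A) (hf : Function.Surjective f) (k : ℕ) :
    lpow K A k ≤ (lpow K B k).map (f : B →ₗ[K] A) := by
  induction k with
  | zero =>
    intro a _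
    obtain ⟨b, rfl⟩ := hf a
    exact ⟨b, trivial, rfl⟩
  | succ k ih =>
    rw [lpow, Submodule.map₂_le]
    intro a _ c hc
    obtain ⟨b, rfl⟩ := hf a
    obtain ⟨d, hd, rfl⟩ := ih hc
    exact ⟨b * d, mul_mem_lpow_succ b hd, by simp⟩

/-- A homomorphism to the unitization with zero scalar part is a homomorphism to the algebra. -/
def sndHom {B : Type u} [NonUnitalRing B] [Module K B] (g : B →ₙₐ[K] Unitization K A)
    (hg : ∀ b, (g b).fst = 0) : B →ₙₐ[K] A where
  toFun b := (g b).snd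
  map_smul' c b := by simp
  map_zero' := by simp
  map_add' a b := by simp
  map_mul' a b := by simp [hg]

end Aux

section Construction

variable (K : Type u) [Field K] (r N : ℕ)

abbrev FI : NonUnitalSubalgebra K (FreeAlgebra K (Fin r)) :=
  NonUnitalAlgebra.adjoin K (Set.range (FreeAlgebra.ι K : Fin r → FreeAlgebra K (Fin r)))

def rel (a b : FreeAlgebra K (Fin r)) : Prop :=
  b = 0 ∧ ∃ c : FI K r, c ∈ lpow K (FI K r) N ∧ (c : FreeAlgebra K (Fin r)) = a

abbrev FR : Type u := RingQuot (rel K r N)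

noncomputable def mkI : FI K r →ₙₐ[K] FR K r N :=
  ((RingQuot.mkAlgHom K (rel K r N) : FreeAlgebra K (Fin r) →ₐ[K] FR K r N) :
    FreeAlgebra K (Fin r) →ₙₐ[K] FR K r N).comp (NonUnitalSubalgebraClass.subtype (FI K r))

noncomputable abbrev FH : NonUnitalSubalgebra K (FR K r N) :=
  NonUnitalAlgHom.range (mkI K r N)

noncomputable def piH : FI K r →ₙₐ[K] FH K r N := NonUnitalAlgHom.rangeRestrict (mkI K r N)

theorem piH_surjective : Function.Surjective (piH K r N) := by
  rintro ⟨_, c, rfl⟩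
  exact ⟨c, rfl⟩

def genI (i : Fin r) : FI K r :=
  ⟨FreeAlgebra.ι K i, NonUnitalAlgebra.subset_adjoin K ⟨i, rfl⟩⟩

noncomputable def genH (i : Fin r) : FH K r N := piH K r N (genI K r i)

theorem lpow_FH : lpow K (FH K r N) N = ⊥ := by
  rw [eq_bot_iff]
  intro a ha
  obtain ⟨c, hc, rfl⟩ := exists_lpow_preimage _ (piH_surjective K r N) N ha
  apply Subtype.ext
  have := RingQuot.mkAlgHom_rel K (s := rel K r N) (x := (c : FreeAlgebra K (Fin r))) (y := 0)
    ⟨rfl, c, hc, rfl⟩
  rw [map_zero] at this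
  exact this

theorem hom_ext_FI {B : Type u} [NonUnitalRing B] [Module K B] (f g : FI K r →ₙₐ[K] B)
    (h : ∀ i, f (genI K r i) = g (genI K r i)) : f = g := by
  ext ⟨a, ha⟩
  induction ha using NonUnitalAlgebra.adjoin_induction with
  | mem a ha =>
    obtain ⟨i, rfl⟩ := ha
    exact h i
  | add a b ha hb iha ihb =>
    have : (⟨a + b, add_mem ha hb⟩ : FI K r) = ⟨a, ha⟩ + ⟨b, hb⟩ := rfl
    rw [this, map_add, map_add, iha, ihb]
  | zero =>
    have : (⟨0, zero_mem _⟩ : FI K r) = 0 := rfl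
    rw [this, map_zero, map_zero]
  | mul a b ha hb iha ihb =>
    have : (⟨a * b, mul_mem ha hb⟩ : FI K r) = ⟨a, ha⟩ * ⟨b, hb⟩ := rfl
    rw [this, map_mul, map_mul, iha, ihb]
  | smul d a ha iha =>
    have : (⟨d • a, SMulMemClass.smul_mem d ha⟩ : FI K r) = d • ⟨a, ha⟩ := rfl
    rw [this, map_smul, map_smul, iha]

theorem lift_FH (B : Type u) [NonUnitalRing B] [Module K B] [IsScalarTower K B B]
    [SMulCommClass K B B] (hB : lpow K B N = ⊥) (y : Fin r → B) :
    ∃! f : FH K r N →ₙₐ[K] B, ∀ i, f (genH K r N i) = y i := by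
  let g : FreeAlgebra K (Fin r) →ₐ[K] Unitization K B :=
    FreeAlgebra.lift K fun i => (y i : Unitization K B)
  have hg : ∀ a ∈ FI K r, (g a).fst = 0 := by
    intro a ha
    induction ha using NonUnitalAlgebra.adjoin_induction with
    | mem a ha =>
      obtain ⟨i, rfl⟩ := ha
      simp [g]
    | add a b _ _ iha ihb => simp [iha, ihb]
    | zero => simp
    | mul a b _ _ iha ihb => simp [iha]
    | smul d a _ iha => simp [iha]
  let g' : FI K r →ₙₐ[K] B :=
    sndHom ((g : FreeAlgebra K (Fin r) →ₙₐ[K] Unitization K B).comp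
      (NonUnitalSubalgebraClass.subtype (FI K r))) fun b => hg b b.2
  have hrel : ∀ ⦃a b⦄, rel K r N a b → g a = g b := by
    rintro _ _ ⟨rfl, c, hc, rfl⟩
    have h1 := map_mem_lpow g' N hc
    rw [hB] at h1
    rw [map_zero]
    exact Unitization.ext (hg c c.2) h1
  let G : FR K r N →ₐ[K] Unitization K B := RingQuot.liftAlgHom K ⟨g, hrel⟩
  have hG : ∀ c : FI K r, G (mkI K r N c) = g c := fun c =>
    RingQuot.liftAlgHom_mkAlgHom_apply K g hrel c
  have hG0 : ∀ b : FH K r N, (G b).fst = 0 := by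
    rintro ⟨_, c, rfl⟩
    exact (congrArg (fun z : Unitization K B => z.fst) (hG c)).trans (hg c c.2)
  let G' : FH K r N →ₙₐ[K] Unitization K B :=
    (G : FR K r N →ₙₐ[K] Unitization K B).comp (NonUnitalSubalgebraClass.subtype (FH K r N))
  let f₀ : FH K r N →ₙₐ[K] B := sndHom (B := FH K r N) G' hG0
  have hf₀ : ∀ i, f₀ (genH K r N i) = y i := by
    intro i
    refine (congrArg (fun z : Unitization K B => z.snd) (hG (genI K r i))).trans ?_
    simp [g, genI]
  refine ⟨f₀, hf₀, fun f hf => ?_⟩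
  have key : f.comp (piH K r N) = f₀.comp (piH K r N) :=
    hom_ext_FI K r _ _ fun i => (hf i).trans (hf₀ i).symm
  ext b
  obtain ⟨c, rfl⟩ := piH_surjective K r N b
  exact congrArg (fun φ : FI K r →ₙₐ[K] B => φ c) key

theorem exists_isFreeIn {P : ∀ (A : Type u) [NonUnitalRing A] [Module K A], Prop}
    (hP : ∀ (B : Type u) [NonUnitalRing B] [Module K B] [IsScalarTower K B B]
      [SMulCommClass K B B], P B ↔ lpow K B N = ⊥) :
    ∃ (H : Type u) (_ : NonUnitalRing H) (_ : Module K H) (_ : IsScalarTower K H H)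
      (_ : SMulCommClass K H H) (x : Fin r → H), IsFreeIn K P H x :=
  ⟨FH K r N, inferInstance, inferInstance, inferInstance, inferInstance, genH K r N,
    (hP _).2 (lpow_FH K r N), fun B _ _ _ _ hB y => lift_FH K r N B ((hP B).1 hB) y⟩

theorem exists_free_nilpotent {n : ℕ} (hn : 1 ≤ n) :
    ∃ (H : Type u) (_ : NonUnitalRing H) (_ : Module K H) (_ : IsScalarTower K H H)
      (_ : SMulCommClass K H H) (x : Fin r → H),
      IsFreeIn K (fun B _ _ => algPow K B n = ⊥) H x := by
  obtain ⟨k, rfl⟩ : ∃ k, n = k + 1 := ⟨n - 1, by omega⟩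
  exact exists_isFreeIn K r k (fun B _ _ _ _ => by rw [algPow_succ])

theorem exists_free_solvable (n : ℕ) :
    ∃ (H : Type u) (_ : NonUnitalRing H) (_ : Module K H) (_ : IsScalarTower K H H)
      (_ : SMulCommClass K H H) (x : Fin r → H),
      IsFreeIn K (fun B _ _ => derivedPow K B n = ⊥) H x :=
  exists_isFreeIn K r (2 ^ n - 1) (fun B _ _ _ _ => by rw [derivedPow_eq])

end Construction

end Pool.Agent.MP_3d7de8_lc
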