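import Pool.Agent.MP_3d7de8_lc.Main

universe u

namespace Pool.Agent.MP_3d7de8_lc

/-- The algebra `t K[t] / (t ^ 3)`, with coordinates the coefficients of `t` and `t ^ 2`. -/
def T3 (K : Type u) : Type u := K × K

section T3

variable {K : Type u} [Field K]

instance : AddCommGroup (T3 K) := inferInstanceAs (AddCommGroup (K × K))
instance : Module K (T3 K) := inferInstanceAs (Module K (K × K))
instance : Mul (T3 K) := ⟨fun a b => ((0, a.1 * b.1) : K × K)⟩

theorem T3.ext' {a b : T3 K} (h1 : a.1 = b.1) (h2 : a.2 = b.2) : a = b := Prod.ext h1 h2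

@[simp] theorem T3.mul_fst (a b : T3 K) : (a * b).1 = 0 := rfl
@[simp] theorem T3.mul_snd (a b : T3 K) : (a * b).2 = a.1 * b.1 := rfl
@[simp] theorem T3.add_fst (a b : T3 K) : (a + b).1 = a.1 + b.1 := rfl
@[simp] theorem T3.add_snd (a b : T3 K) : (a + b).2 = a.2 + b.2 := rfl
@[simp] theorem T3.zero_fst : (0 : T3 K).1 = 0 := rfl
@[simp] theorem T3.zero_snd : (0 : T3 K).2 = 0 := rfl
@[simp] theorem T3.smul_fst (c : K) (a : T3 K) : (c • a).1 = c * a.1 := rfl
@[simp] theorem T3.smul_snd (c : K) (a : T3 K) : (c • a).2 = c * a.2 := rfl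

instance : NonUnitalRing (T3 K) where
  left_distrib a b c := T3.ext' (by simp) (by simp [mul_add])
  right_distrib a b c := T3.ext' (by simp) (by simp [add_mul])
  zero_mul a := T3.ext' (by simp) (by simp)
  mul_zero a := T3.ext' (by simp) (by simp)
  mul_assoc a b c := T3.ext' (by simp) (by simp)

instance : IsScalarTower K (T3 K) (T3 K) :=
  ⟨fun c a b => T3.ext' (by simp) (by simp [mul_assoc])⟩

instance : SMulCommClass K (T3 K) (T3 K) :=
  ⟨fun c a b => T3.ext' (by simp) (by simp [mul_left_comm])⟩

def T3.fstL : T3 K →ₗ[K] K := LinearMap.fst K K K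
def T3.sndL : T3 K →ₗ[K] K := LinearMap.snd K K K

@[simp] theorem T3.fstL_apply (a : T3 K) : T3.fstL a = a.1 := rfl
@[simp] theorem T3.sndL_apply (a : T3 K) : T3.sndL a = a.2 := rfl

theorem lpow_T3 {N : ℕ} (hN : 2 ≤ N) : lpow K (T3 K) N = ⊥ := by
  induction N, hN using Nat.le_induction with
  | base =>
    have h1 : lpow K (T3 K) 1 ≤ LinearMap.ker T3.fstL := by
      rw [lpow, Submodule.map₂_le]
      intro a _ b _
      simp
    rw [eq_bot_iff, lpow, Submodule.map₂_le]
    intro a _ b hb
    have hb' : b.1 = 0 := h1 hb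
    exact T3.ext' (by simp) (by simp [hb'])
  | succ N _ ih => rw [lpow, ih, Submodule.map₂_bot_right]

end T3

section Powers

variable {K : Type u} [Field K] {A : Type u} [NonUnitalRing A] [Module K A]
  [IsScalarTower K A A] [SMulCommClass K A A]

theorem spanMul_eq_map₂ (P Q : Submodule K A) :
    spanMul K A P Q = Submodule.map₂ (LinearMap.mul K A) P Q := by
  apply le_antisymm
  · rw [spanMul, Submodule.span_le]
    rintro _ ⟨a, ha, b, hb, rfl⟩
    exact Submodule.apply_mem_map₂ (LinearMap.mul K A) ha hb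
  · rw [Submodule.map₂_le]
    intro a ha b hb
    exact Submodule.subset_span ⟨a, ha, b, hb, rfl⟩

theorem map₂_lpow (i j : ℕ) :
    Submodule.map₂ (LinearMap.mul K A) (lpow K A i) (lpow K A j) = lpow K A (i + j + 1) := by
  apply le_antisymm
  · rw [Submodule.map₂_le]
    intro a ha b hb
    exact mul_mem_lpow ha hb
  · induction i with
    | zero => simp [lpow]
    | succ i ih =>
      rw [show i + 1 + j + 1 = (i + j + 1) + 1 by omega, lpow, Submodule.map₂_le]
      intro a _ b hb
      have : Submodule.map₂ (LinearMap.mul K A) (lpow K A i) (lpow K A j) ≤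
          (Submodule.map₂ (LinearMap.mul K A) (lpow K A (i + 1)) (lpow K A j)).comap
            (LinearMap.mulLeft K a) := by
        rw [Submodule.map₂_le]
        intro c hc d hd
        simp only [Submodule.mem_comap, LinearMap.mul_apply', LinearMap.mulLeft_apply, ← mul_assoc]
        exact Submodule.apply_mem_map₂ (LinearMap.mul K A) (mul_mem_lpow_succ a hc) hd
      exact this (ih hb)

theorem algPow_succ (k : ℕ) : algPow K A (k + 1) = lpow K A k := by
  induction k using Nat.strong_induction_on with
  | _ k ih =>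
    cases k with
    | zero => simp [algPow, lpow]
    | succ k =>
      rw [algPow]
      have : ∀ i : Fin (k + 1),
          spanMul K A (algPow K A (i + 1)) (algPow K A (k + 1 - i)) = lpow K A (k + 1) := by
        intro i
        have hi := i.isLt
        rw [show k + 1 - i = (k - i) + 1 by omega, ih i (by omega), ih (k - i) (by omega),
          spanMul_eq_map₂, map₂_lpow]
        congr 1
        omega
      simp only [this, iSup_const]

theorem derivedPow_eq (k : ℕ) : derivedPow K A k = lpow K A (2 ^ k - 1) := by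
  induction k with
  | zero => simp [derivedPow, lpow]
  | succ k ih =>
    rw [derivedPow, ih, spanMul_eq_map₂, map₂_lpow]
    congr 1
    have : 0 < 2 ^ k := by positivity
    omega

theorem map_mem_lpow {B : Type u} [NonUnitalRing B] [Module K B] [IsScalarTower K B B]
    [SMulCommClass K B B] (f : B →ₙₐ[K] A) (k : ℕ) {b : B} (hb : b ∈ lpow K B k) :
    f b ∈ lpow K A k := by
  induction k generalizing b with
  | zero => trivial
  | succ k ih =>
    have : lpow K B (k + 1) ≤ (lpow K A (k + 1)).comap (f : B →ₗ[K] A) := by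
      rw [lpow, Submodule.map₂_le]
      intro c _ d hd
      have := mul_mem_lpow_succ (f c) (ih hd)
      simpa using this
    exact this hb

theorem homogeneous_of_isFreeIn {P : ∀ (A : Type u) [NonUnitalRing A] [Module K A], Prop} {N : ℕ}
    (hP : ∀ (B : Type u) [NonUnitalRing B] [Module K B] [IsScalarTower K B B]
      [SMulCommClass K B B], P B ↔ lpow K B N = ⊥)
    {r : ℕ} {x : Fin r → A} (h : IsFreeIn K P A x) : LogicallyHomogeneous K A := by
  have hN : lpow K A N = ⊥ := (hP A).1 h.mem
  by_cases h2 : 2 ≤ N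
  · have hx : NonUnitalAlgebra.adjoin K (Set.range x) = ⊤ := by
      set S := NonUnitalAlgebra.adjoin K (Set.range x) with hS
      have hPS : P S := by
        rw [hP, eq_bot_iff]
        intro b hb
        have := map_mem_lpow (NonUnitalSubalgebraClass.subtype S) N hb
        rw [hN] at this
        exact Subtype.ext this
      obtain ⟨f, hf, -⟩ := h.lift S hPS fun i => ⟨x i, NonUnitalAlgebra.subset_adjoin K ⟨i, rfl⟩⟩
      have hid : (NonUnitalSubalgebraClass.subtype S).comp f = NonUnitalAlgHom.id K A :=
        (h.lift A h.mem x).unique (fun i => by simp [hf]) (fun i => rfl)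
      rw [eq_top_iff]
      intro a _
      have : ((f a : S) : A) = a := congrArg (fun g : A →ₙₐ[K] A => g a) hid
      rw [← this]
      exact (f a).2
    refine homogeneous_of_test hx hN (fun y => (h.lift A h.mem y).exists) fun c => ?_
    obtain ⟨f, hf, -⟩ := h.lift (T3 K) ((hP _).2 (lpow_T3 h2)) fun i => ((c i, 0) : K × K)
    refine ⟨T3.fstL ∘ₗ (f : A →ₗ[K] T3 K), T3.sndL ∘ₗ (f : A →ₗ[K] T3 K), fun i => ?_,
      fun a b => ?_, fun a b => ?_⟩
    · change (f (x i)).1 = c i
      rw [hf]
    · change (f (a * b)).1 = 0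
      simp
    · change (f (a * b)).2 = (f a).1 * (f b).1
      simp
  · refine homogeneous_of_mul_eq_zero fun a b => ?_
    obtain rfl | rfl : N = 0 ∨ N = 1 := by omega
    · have : a * b ∈ lpow K A 0 := trivial
      rwa [hN] at this
    · have : a * b ∈ lpow K A 1 := mul_mem_lpow_succ a trivial
      rwa [hN] at this

theorem homogeneous_free_nilpotent {n : ℕ} (hn : 1 ≤ n) {r : ℕ} {x : Fin r → A}
    (h : IsFreeIn K (fun B _ _ => algPow K B n = ⊥) A x) : LogicallyHomogeneous K A := by
  obtain ⟨k, rfl⟩ : ∃ k, n = k + 1 := ⟨n - 1, by omega⟩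
  exact homogeneous_of_isFreeIn (N := k) (fun B _ _ _ _ => by rw [algPow_succ]) h

theorem homogeneous_free_solvable {n : ℕ} {r : ℕ} {x : Fin r → A}
    (h : IsFreeIn K (fun B _ _ => derivedPow K B n = ⊥) A x) : LogicallyHomogeneous K A :=
  homogeneous_of_isFreeIn (N := 2 ^ n - 1) (fun B _ _ _ _ => by rw [derivedPow_eq]) h

end Powers

end Pool.Agent.MP_3d7de8_lc
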