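import Pool.Agent.MP_3d7de8_lc.Defs

universe u

namespace Pool.Agent.MP_3d7de8_lc

open FirstOrder FirstOrder.Language

section Terms

variable {K : Type u} {α : Type}

def tZero : (algLang K).Term α := Term.func (l := 0) AlgFunc.zero ![]
def tNeg (a : (algLang K).Term α) : (algLang K).Term α := Term.func (l := 1) AlgFunc.neg ![a]
def tSmul (c : K) (a : (algLang K).Term α) : (algLang K).Term α :=
  Term.func (l := 1) (AlgFunc.smul c) ![a]
def tAdd (a b : (algLang K).Term α) : (algLang K).Term α :=
  Term.func (l := 2) AlgFunc.add ![a, b]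
def tMul (a b : (algLang K).Term α) : (algLang K).Term α :=
  Term.func (l := 2) AlgFunc.mul ![a, b]
def tSum : List ((algLang K).Term α) → (algLang K).Term α
  | [] => tZero
  | a :: l => tAdd a (tSum l)

variable [Field K] {A : Type u} [NonUnitalRing A] [Module K A]

@[simp] theorem realize_tZero (v : α → A) : (tZero (K := K)).realize v = 0 := rfl
@[simp] theorem realize_tNeg (v : α → A) (a : (algLang K).Term α) :
    (tNeg a).realize v = - a.realize v := rfl
@[simp] theorem realize_tSmul (v : α → A) (c : K) (a : (algLang K).Term α) :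
    (tSmul c a).realize v = c • a.realize v := rfl
@[simp] theorem realize_tAdd (v : α → A) (a b : (algLang K).Term α) :
    (tAdd a b).realize v = a.realize v + b.realize v := rfl
@[simp] theorem realize_tMul (v : α → A) (a b : (algLang K).Term α) :
    (tMul a b).realize v = a.realize v * b.realize v := rfl

theorem realize_tSum_list (v : α → A) (l : List ((algLang K).Term α)) :
    (tSum l).realize v = (l.map (fun t => t.realize v)).sum := by
  induction l with
  | nil => rfl
  | cons a l ih => simp [tSum, ih]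

@[simp] theorem realize_tSum (v : α → A) {r : ℕ} (f : Fin r → (algLang K).Term α) :
    (tSum (List.ofFn f)).realize v = ∑ i, (f i).realize v := by
  rw [realize_tSum_list, List.map_ofFn, List.sum_ofFn]
  rfl

end Terms

section Zero

variable {K : Type u} [Field K] {A : Type u} [NonUnitalRing A] [Module K A]

theorem homogeneous_of_mul_eq_zero (h : ∀ a b : A, a * b = 0) : LogicallyHomogeneous K A := by
  intro m _ μ₁ μ₂ htp
  have hker : LinearMap.ker (Fintype.linearCombination K μ₁) =
      LinearMap.ker (Fintype.linearCombination K μ₂) := by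
    ext c
    have key : ∀ μ : Fin m → A,
        (Term.equal (tSum (List.ofFn fun j => tSmul (c j) (Term.var j))) tZero) ∈ tp K A μ ↔
          c ∈ LinearMap.ker (Fintype.linearCombination K μ) := by
      intro μ
      simp [tp, Fintype.linearCombination_apply]
    rw [← key, ← key, htp]
  let e : LinearMap.range (Fintype.linearCombination K μ₁) ≃ₗ[K]
      LinearMap.range (Fintype.linearCombination K μ₂) :=
    (LinearMap.quotKerEquivRange _).symm ≪≫ₗ (Submodule.quotEquivOfEq _ _ hker) ≪≫ₗ
      (LinearMap.quotKerEquivRange _)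
  obtain ⟨g, hg⟩ := Submodule.exists_linearEquiv_restrict_eq e
  refine ⟨{ toFun := g, map_smul' := fun c a => by simp, map_zero' := by simp,
            map_add' := fun a b => by simp, map_mul' := fun a b => by simp [h] },
    g.bijective, fun j => ?_⟩
  have h1 : Fintype.linearCombination K μ₁ (Pi.single j 1) = μ₁ j := by
    simp
  have h2 : Fintype.linearCombination K μ₂ (Pi.single j 1) = μ₂ j := by
    simp
  have h3 := hg ⟨Fintype.linearCombination K μ₁ (Pi.single j 1), LinearMap.mem_range_self _ _⟩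
  change g (μ₁ j) = μ₂ j
  rw [← h1, ← h2, ← h3]
  simp only [e, LinearEquiv.trans_apply]
  rw [LinearMap.quotKerEquivRange_symm_apply_image]
  simp

end Zero

section Pow

variable (K : Type u) [Field K] (A : Type u) [NonUnitalRing A] [Module K A]
  [IsScalarTower K A A] [SMulCommClass K A A]

/-- `lpow k` is the span of products of `k + 1` elements. -/
def lpow : ℕ → Submodule K A
  | 0 => ⊤
  | k + 1 => Submodule.map₂ (LinearMap.mul K A) ⊤ (lpow k)

/-- `upow U k` is the span of products of `k + 1` elements of `U`. -/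
def upow (U : Submodule K A) : ℕ → Submodule K A
  | 0 => U
  | k + 1 => Submodule.map₂ (LinearMap.mul K A) U (upow U k)

variable {K A}

theorem mul_mem_lpow_succ {k : ℕ} (a : A) {b : A} (hb : b ∈ lpow K A k) :
    a * b ∈ lpow K A (k + 1) :=
  Submodule.apply_mem_map₂ (LinearMap.mul K A) Submodule.mem_top hb

theorem mul_mem_lpow {i j : ℕ} {a b : A} (ha : a ∈ lpow K A i) (hb : b ∈ lpow K A j) :
    a * b ∈ lpow K A (i + j + 1) := by
  induction i generalizing a with
  | zero => simpa using mul_mem_lpow_succ a hb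
  | succ i ih =>
    have : lpow K A (i + 1) ≤ (lpow K A (i + 1 + j + 1)).comap (LinearMap.mulRight K b) := by
      rw [lpow, Submodule.map₂_le]
      intro c _ d hd
      simp only [Submodule.mem_comap, LinearMap.mul_apply', LinearMap.mulRight_apply, mul_assoc]
      have := mul_mem_lpow_succ c (ih hd)
      rwa [show i + 1 + j + 1 = i + j + 1 + 1 by omega]
    exact this ha

theorem lpow_le_upow_sup {U : Submodule K A} (hU : U ⊔ lpow K A 1 = ⊤) (k : ℕ) :
    lpow K A k ≤ upow K A U k ⊔ lpow K A (k + 1) := by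
  induction k with
  | zero => simp [upow, hU]
  | succ k ih =>
    rw [lpow, Submodule.map₂_le]
    intro a _ b hb
    have ha : a ∈ U ⊔ lpow K A 1 := hU ▸ Submodule.mem_top
    obtain ⟨a₁, ha₁, a₂, ha₂, rfl⟩ := Submodule.mem_sup.1 ha
    obtain ⟨b₁, hb₁, b₂, hb₂, hb'⟩ := Submodule.mem_sup.1 (ih hb)
    simp only [LinearMap.mul_apply', add_mul]
    refine add_mem ?_ ?_
    · rw [← hb', mul_add]
      refine add_mem (Submodule.mem_sup_left ?_) (Submodule.mem_sup_right ?_)
      · exact Submodule.apply_mem_map₂ (LinearMap.mul K A) ha₁ hb₁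
      · exact mul_mem_lpow_succ _ hb₂
    · refine Submodule.mem_sup_right ?_
      have := mul_mem_lpow ha₂ hb
      rwa [show 1 + k + 1 = k + 1 + 1 by omega] at this

theorem eq_top_of_upow_le {U S : Submodule K A} (hU : U ⊔ lpow K A 1 = ⊤) {N : ℕ}
    (hN : lpow K A N = ⊥) (hS : ∀ k < N, upow K A U k ≤ S) : S = ⊤ := by
  have : ∀ d, d ≤ N → lpow K A (N - d) ≤ S := by
    intro d
    induction d with
    | zero => simp [hN]
    | succ d ih =>
      intro hd
      refine (lpow_le_upow_sup hU _).trans (sup_le (hS _ (by omega)) ?_)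
      rw [show N - (d + 1) + 1 = N - d by omega]
      exact ih (by omega)
  have h := this N le_rfl
  simpa [lpow] using h

theorem upow_fg {U : Submodule K A} (hU : U.FG) (k : ℕ) : (upow K A U k).FG := by
  induction k with
  | zero => exact hU
  | succ k ih => exact Submodule.FG.map₂ _ hU ih

theorem finite_of_nilpotent {U : Submodule K A} (hU : U ⊔ lpow K A 1 = ⊤) (hfg : U.FG) {N : ℕ}
    (hN : lpow K A N = ⊥) : FiniteDimensional K A := by
  have h : (Finset.range N).sup (upow K A U) = ⊤ :=
    eq_top_of_upow_le hU hN fun k hk => Finset.le_sup (Finset.mem_range.2 hk)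
  refine ⟨?_⟩
  rw [← h]
  exact Submodule.fg_finset_sup _ _ fun k _ => upow_fg hfg k

theorem surjective_of_nilpotent {U : Submodule K A} (hU : U ⊔ lpow K A 1 = ⊤) {N : ℕ}
    (hN : lpow K A N = ⊥) (f : A →ₙₐ[K] A) (hf : ∀ a ∈ U, ∃ b, f b = a) :
    Function.Surjective f := by
  have h : LinearMap.range (f : A →ₗ[K] A) = ⊤ := by
    refine eq_top_of_upow_le hU hN fun k hk => ?_
    clear hk
    induction k with
    | zero => exact fun a ha => hf a ha
    | succ k ih =>
      rw [upow, Submodule.map₂_le]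
      intro a ha b hb
      obtain ⟨a', rfl⟩ := hf a ha
      obtain ⟨b', rfl⟩ := ih hb
      exact ⟨a' * b', by simp⟩
  exact LinearMap.range_eq_top.1 h

end Pow

section Gen

variable {K : Type u} [Field K] {A : Type u} [NonUnitalRing A] [Module K A]
  [IsScalarTower K A A] [SMulCommClass K A A] {r : ℕ} {x : Fin r → A}

theorem exists_decomp (hx : NonUnitalAlgebra.adjoin K (Set.range x) = ⊤) (a : A) :
    ∃ (c : Fin r → K) (h : Fin r → A), a = ∑ i, c i • x i + ∑ i, x i * h i := by
  have ha : a ∈ NonUnitalAlgebra.adjoin K (Set.range x) := hx ▸ trivial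
  induction ha using NonUnitalAlgebra.adjoin_induction with
  | mem a ha =>
    obtain ⟨i, rfl⟩ := ha
    exact ⟨Pi.single i 1, 0, by simp [Pi.single_apply]⟩
  | add a b _ _ iha ihb =>
    obtain ⟨c, h, rfl⟩ := iha
    obtain ⟨c', h', rfl⟩ := ihb
    refine ⟨c + c', h + h', ?_⟩
    simp only [Pi.add_apply, add_smul, mul_add, Finset.sum_add_distrib]
    abel
  | zero => exact ⟨0, 0, by simp⟩
  | mul a b _ _ iha _ =>
    obtain ⟨c, h, rfl⟩ := iha
    refine ⟨0, fun i => c i • b + h i * b, ?_⟩
    simp [add_mul, mul_add, Finset.sum_mul, Finset.sum_add_distrib, mul_assoc, mul_smul_comm,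
      smul_mul_assoc]
  | smul d a _ iha =>
    obtain ⟨c, h, rfl⟩ := iha
    refine ⟨d • c, d • h, ?_⟩
    simp [Finset.smul_sum, smul_smul, mul_smul_comm]

theorem span_sup_eq_top (hx : NonUnitalAlgebra.adjoin K (Set.range x) = ⊤) :
    Submodule.span K (Set.range x) ⊔ lpow K A 1 = ⊤ := by
  rw [eq_top_iff]
  intro a _
  obtain ⟨c, h, rfl⟩ := exists_decomp hx a
  refine add_mem (Submodule.mem_sup_left ?_) (Submodule.mem_sup_right ?_)
  · exact Submodule.sum_mem _ fun i _ => Submodule.smul_mem _ _ (Submodule.subset_span ⟨i, rfl⟩)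
  · exact Submodule.sum_mem _ fun i _ => mul_mem_lpow_succ _ Submodule.mem_top

theorem sq_decomp (hx : NonUnitalAlgebra.adjoin K (Set.range x) = ⊤) (a : A) :
    ∃ h : Fin r → A, a * a = ∑ i, x i * h i := by
  obtain ⟨c, h, ha⟩ := exists_decomp hx a
  refine ⟨fun i => c i • a + h i * a, ?_⟩
  conv_lhs => congr; rw [ha]
  simp [add_mul, mul_add, Finset.sum_mul, Finset.sum_add_distrib, mul_assoc, mul_smul_comm,
      smul_mul_assoc]

theorem exists_term (hx : NonUnitalAlgebra.adjoin K (Set.range x) = ⊤) (a : A) :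
    ∃ t : (algLang K).Term (Fin r), ∀ f : A →ₙₐ[K] A, t.realize (fun i => f (x i)) = f a := by
  have ha : a ∈ NonUnitalAlgebra.adjoin K (Set.range x) := hx ▸ trivial
  induction ha using NonUnitalAlgebra.adjoin_induction with
  | mem a ha =>
    obtain ⟨i, rfl⟩ := ha
    exact ⟨Term.var i, fun f => rfl⟩
  | add a b _ _ iha ihb =>
    obtain ⟨s, hs⟩ := iha
    obtain ⟨t, ht⟩ := ihb
    exact ⟨tAdd s t, fun f => by simp [hs, ht]⟩
  | zero => exact ⟨tZero, fun f => by simp⟩
  | mul a b _ _ iha ihb =>
    obtain ⟨s, hs⟩ := iha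
    obtain ⟨t, ht⟩ := ihb
    exact ⟨tMul s t, fun f => by simp [hs, ht]⟩
  | smul d a _ iha =>
    obtain ⟨s, hs⟩ := iha
    exact ⟨tSmul d s, fun f => by simp [hs]⟩

/-- If linear functionals on `A / A ^ 2` have squares that factor through the product, then a tuple
`y` with `a * a ∈ ∑ y i * A` for all `a` spans `A` modulo `A ^ 2`. -/
theorem span_sup_eq_top_of_sq (hx : NonUnitalAlgebra.adjoin K (Set.range x) = ⊤)
    (htest : ∀ c : Fin r → K, ∃ l m : A →ₗ[K] K, (∀ i, l (x i) = c i) ∧ (∀ a b, l (a * b) = 0) ∧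
      ∀ a b, m (a * b) = l a * l b)
    {s : ℕ} {y : Fin s → A} (hy : ∀ a : A, ∃ h : Fin s → A, a * a = ∑ i, y i * h i) :
    Submodule.span K (Set.range y) ⊔ lpow K A 1 = ⊤ := by
  by_contra hne
  obtain ⟨g, hg0, hg⟩ := Submodule.exists_le_ker_of_lt_top _ (lt_top_iff_ne_top.2 hne)
  obtain ⟨l, m, hl, hl0, hm⟩ := htest fun i => g (x i)
  have hgmul : ∀ a b, g (a * b) = 0 := fun a b =>
    hg (Submodule.mem_sup_right (mul_mem_lpow_succ _ Submodule.mem_top))
  have hgy : ∀ i, g (y i) = 0 := fun i =>
    hg (Submodule.mem_sup_left (Submodule.subset_span ⟨i, rfl⟩))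
  have hlg : ∀ a, l a = g a := by
    intro a
    obtain ⟨c, h, rfl⟩ := exists_decomp hx a
    simp [hl, hl0, hgmul]
  apply hg0
  ext a
  obtain ⟨h, hh⟩ := hy a
  have := congrArg m hh
  simp only [map_sum, hm, hlg, hgy, zero_mul, Finset.sum_const_zero] at this
  simpa using this

/-- The formula in the variables `y`: for all `a` there is `h` with `a * a = ∑ y i * h i`. -/
noncomputable def genFormula (K : Type u) (r : ℕ) : (algLang K).Formula (Fin r) :=
  Formula.iAlls Unit (Formula.iExs (Fin r)
    (Term.equal (tMul (Term.var (Sum.inl (Sum.inr ()))) (Term.var (Sum.inl (Sum.inr ()))))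
      (tSum (List.ofFn fun i : Fin r =>
        tMul (Term.var (Sum.inl (Sum.inl i))) (Term.var (Sum.inr i))))))

omit [IsScalarTower K A A] [SMulCommClass K A A] in
theorem realize_genFormula (y : Fin r → A) :
    (genFormula K r).Realize y ↔ ∀ a : A, ∃ h : Fin r → A, a * a = ∑ i, y i * h i := by
  simp only [genFormula, Formula.realize_iAlls, Formula.realize_iExs, Formula.realize_equal,
    realize_tMul, realize_tSum, Term.realize_var, Sum.elim_inl, Sum.elim_inr]
  exact ⟨fun h a => h fun _ => a, fun h a => h (a ())⟩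

/-- The formula that isolates the orbit of `t(x)`. -/
noncomputable def orbitFormula {m : ℕ} (t : Fin m → (algLang K).Term (Fin r)) :
    (algLang K).Formula (Fin m) :=
  Formula.iExs (Fin r) ((genFormula K r).relabel Sum.inr ⊓
    Formula.iInf fun j : Fin m => Term.equal (Term.var (Sum.inl j)) ((t j).relabel Sum.inr))

omit [IsScalarTower K A A] [SMulCommClass K A A] in
theorem realize_orbitFormula {m : ℕ} (t : Fin m → (algLang K).Term (Fin r)) (μ : Fin m → A) :
    (orbitFormula t).Realize μ ↔ ∃ y : Fin r → A,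
      (∀ a : A, ∃ h : Fin r → A, a * a = ∑ i, y i * h i) ∧ ∀ j, μ j = (t j).realize y := by
  simp only [orbitFormula, Formula.realize_iExs, Formula.realize_inf, Formula.realize_relabel,
    Formula.realize_iInf, Formula.realize_equal, Term.realize_var, Term.realize_relabel,
    Sum.elim_inl, realize_genFormula]
  rfl

theorem homogeneous_of_test (hx : NonUnitalAlgebra.adjoin K (Set.range x) = ⊤)
    {N : ℕ} (hN : lpow K A N = ⊥)
    (hlift : ∀ y : Fin r → A, ∃ f : A →ₙₐ[K] A, ∀ i, f (x i) = y i)
    (htest : ∀ c : Fin r → K, ∃ l m : A →ₗ[K] K, (∀ i, l (x i) = c i) ∧ (∀ a b, l (a * b) = 0) ∧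
      ∀ a b, m (a * b) = l a * l b) : LogicallyHomogeneous K A := by
  intro m _ μ₁ μ₂ htp
  choose t ht using fun j => exists_term hx (μ₁ j)
  have h1 : orbitFormula t ∈ tp K A μ₁ := by
    refine (realize_orbitFormula t μ₁).2 ⟨x, sq_decomp hx, fun j => ?_⟩
    exact (ht j (NonUnitalAlgHom.id K A)).symm
  rw [htp] at h1
  obtain ⟨y, hy, hμ⟩ := (realize_orbitFormula t μ₂).1 h1
  obtain ⟨f, hf⟩ := hlift y
  have hU := span_sup_eq_top_of_sq hx htest hy
  have hsurj : Function.Surjective f := by
    refine surjective_of_nilpotent hU hN f fun a ha => ?_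
    have : Submodule.span K (Set.range y) ≤ LinearMap.range (f : A →ₗ[K] A) := by
      rw [Submodule.span_le]
      rintro _ ⟨i, rfl⟩
      exact ⟨x i, hf i⟩
    exact this ha
  have : FiniteDimensional K A :=
    finite_of_nilpotent (span_sup_eq_top hx) (Submodule.fg_span (Set.finite_range x)) hN
  have hinj : Function.Injective f :=
    (LinearMap.injective_iff_surjective (f := (f : A →ₗ[K] A))).2 hsurj
  refine ⟨f, ⟨hinj, hsurj⟩, fun j => ?_⟩
  rw [hμ j, ← ht j f]
  simp only [hf]

end Gen

end Pool.Agent.MP_3d7de8_lc
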