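import Pool.Agent.MP_3d7de8_lc.Defs

universe u v

namespace Pool.Agent.MP_3d7de8_lc.PP

open FirstOrder FirstOrder.Language

/-- The positive primitive formula `∃ y, s₁ = t₁ ∧ ⋯ ∧ sₗ = tₗ` in `m` free variables. -/
noncomputable def ppFormula {K : Type u} {m k l : ℕ}
    (s t : Fin l → (algLang K).Term (Fin m ⊕ Fin k)) : (algLang K).Formula (Fin m) :=
  Formula.iExs (Fin k) (Formula.iInf fun j => Term.equal (s j) (t j))

variable (K : Type u) [Field K] (A : Type v) [NonUnitalNonAssocRing A] [Module K A]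

/-- An algebra, associative or not, as a structure for `algLang K`. -/
instance naStructure : (algLang K).Structure A where
  funMap := fun {_} f v =>
    match f, v with
    | .zero, _ => 0
    | .neg, v => -v 0
    | .smul c, v => c • v 0
    | .add, v => v 0 + v 1
    | .mul, v => v 0 * v 1
  RelMap := fun {_} r _ => r.elim

/-- The positive primitive type of a tuple: the positive primitive formulas that it satisfies. -/
def ppTp {m : ℕ} (μ : Fin m → A) : Set ((algLang K).Formula (Fin m)) :=
  {φ | (∃ (k l : ℕ) (s t : Fin l → (algLang K).Term (Fin m ⊕ Fin k)), φ = ppFormula s t) ∧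
    φ.Realize μ}

/-- The `K`-span of the products `a * b` with `a ∈ P`, `b ∈ Q`. -/
def naMul (P Q : Submodule K A) : Submodule K A :=
  Submodule.span K {z | ∃ a ∈ P, ∃ b ∈ Q, z = a * b}

/-- `naPow K A k` is `A ^ k` for `k ≥ 1`: `A ^ 1 = A`, and `A ^ (k + 2)` is the sum of the
`A ^ i * A ^ j` over `i + j = k + 2`, `i, j ≥ 1`. -/
noncomputable def naPow : ℕ → Submodule K A
  | 0 => ⊤
  | 1 => ⊤
  | k + 2 => ⨆ i : Fin (k + 1), naMul K A (naPow (i + 1)) (naPow (k + 1 - i))

end Pool.Agent.MP_3d7de8_lc.PP
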