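import Pool.Agent.MP_3d7de8_lc.PPNil

universe u v w

namespace Pool.Agent.MP_3d7de8_lc.PP

open FirstOrder FirstOrder.Language

variable {K : Type u} [Field K] {A : Type v} [NonUnitalNonAssocRing A] [Module K A]
  [IsScalarTower K A A] [SMulCommClass K A A]

omit [IsScalarTower K A A] [SMulCommClass K A A] in
theorem exists_stable [FiniteDimensional K A] (θ : A →ₙₐ[K] A) : ∃ T : A →ₙₐ[K] A,
    (∀ a, θ a = a → T a = a) ∧ (∀ a, ∃ b, T a = θ (T (T b))) ∧ ∀ a, θ (T a) = T (θ a) := by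
  have k : ∀ N : ℕ, ∃ T : A →ₙₐ[K] A, ∀ a, T a = θ^[N] a := by
    intro N
    induction N with
    | zero => exact ⟨NonUnitalAlgHom.id K A, fun _ => rfl⟩
    | succ N ih =>
      obtain ⟨T, hT⟩ := ih
      exact ⟨T.comp θ, fun a => hT (θ a)⟩
  obtain ⟨N, hN⟩ := IsArtinian.monotone_stabilizes (LinearMap.iterateRange (θ : A →ₗ[K] A))
  obtain ⟨T, hT⟩ := k N
  refine ⟨T, fun a h => (hT a).trans (Function.iterate_fixed h N), fun a => ?_, fun a => ?_⟩
  · have h : LinearMap.range ((θ : A →ₗ[K] A) ^ N) =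
        LinearMap.range ((θ : A →ₗ[K] A) ^ (1 + (N + N))) := hN _ (by omega)
    obtain ⟨b, hb⟩ := h.le (LinearMap.mem_range_self _ a)
    refine ⟨b, ?_⟩
    rw [Module.End.pow_apply, Module.End.pow_apply, Function.iterate_add_apply,
      Function.iterate_add_apply] at hb
    rw [hT, hT, hT]
    exact hb.symm
  · rw [hT, hT, ← Function.iterate_succ_apply, Function.iterate_succ_apply']

theorem finite_case {n : ℕ} (hn : naPow K A n = ⊥) {ι : Type w} [Finite ι] {x : ι → A}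
    (hx : NonUnitalAlgebra.adjoin K (Set.range x) = ⊤)
    (hl : ∀ y : ι → A, ∃ f : A →ₙₐ[K] A, ∀ i, f (x i) = y i) (φ ψ : A →ₙₐ[K] A) :
    ∃ σ : A →ₙₐ[K] A, Function.Bijective σ ∧ ∀ a, ψ (φ a) = a → σ a = φ a := by
  have := finite_of_nil hn hx
  obtain ⟨T, t1, t2, t3⟩ := exists_stable (ψ.comp φ)
  let q := (naPow K A 2).mkQ
  have hq : ∀ a b, q a = q b ↔ a - b ∈ naPow K A 2 := fun a b => Submodule.Quotient.eq _
  have hf : ∀ (f : A →ₙₐ[K] A) a b, q a = q b → q (f a) = q (f b) := fun f a b h => by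
    rw [hq, ← map_sub]
    exact map_mem_naPow f 2 _ ((hq a b).1 h)
  obtain ⟨s, hs⟩ := (q.comp (Submodule.span K (Set.range x)).subtype).exists_rightInverse_of_surjective
    (by rw [LinearMap.range_comp, Submodule.range_subtype, Submodule.map_mkQ_eq_top, sup_comm,
      span_sup hx])
  have hs' : ∀ v, q (s v) = v := fun v => LinearMap.congr_fun hs v
  let W := LinearMap.range (q.comp (T : A →ₗ[K] A))
  have ex : ∀ y : W →ₗ[K] A, Function.Injective (q.comp y) →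
      ∃ f : A →ₙₐ[K] A, Function.Bijective f ∧ ∀ w : W, f (s w) = y w := by
    intro y hy
    obtain ⟨e, he⟩ := Submodule.exists_linearEquiv_restrict_eq (LinearEquiv.ofInjective _ hy)
    have he' : ∀ w : W, e w = q (y w) := fun w => (he w).symm
    obtain ⟨p, hp⟩ := W.subtype.exists_leftInverse_of_injective W.ker_subtype
    have hp' : ∀ w : W, p w = w := fun w => LinearMap.congr_fun hp w
    let s' := (Submodule.span K (Set.range x)).subtype.comp s
    let g := s'.comp e.toLinearMap + (y - s'.comp (q.comp y)).comp p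
    obtain ⟨f, f1⟩ := hl fun i => g (q (x i))
    have f2 : ∀ v, f (s v) = g v := fun v => by
      have := LinearMap.eqOn_span (f := (f : A →ₗ[K] A)) (g := g.comp q)
        (by rintro _ ⟨i, rfl⟩; exact f1 i) (s v).2
      rw [LinearMap.comp_apply, hs'] at this
      exact this
    have f3 : Function.Surjective f := fun a => nakayama hn (NonUnitalAlgHom.range f) (fun a =>
      ⟨_, ⟨s (e.symm (q a)), rfl⟩, (hq _ _).1 (by
        change q a = q (f _)
        simp [f2, g, s', hs'])⟩) a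
    exact ⟨f, ⟨(LinearMap.injective_iff_surjective (f := (f : A →ₗ[K] A))).2 f3, f3⟩,
      fun w => by simp [f2, g, s', he', hp']⟩
  obtain ⟨t, ht⟩ := (q.comp (T : A →ₗ[K] A)).rangeRestrict.exists_rightInverse_of_surjective
    (LinearMap.range_rangeRestrict _)
  have ht' : ∀ w : W, q (T (t w)) = w := fun w => congrArg Subtype.val (LinearMap.congr_fun ht w)
  let y : W →ₗ[K] A := (T : A →ₗ[K] A).comp ((T : A →ₗ[K] A).comp t)
  let z : W →ₗ[K] W := (q.comp (((ψ.comp φ : A →ₙₐ[K] A) : A →ₗ[K] A).comp y)).codRestrict W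
    fun w => ⟨_, congrArg q (t3 _).symm⟩
  have z1 : Function.Injective z := by
    refine LinearMap.injective_iff_surjective.2 ?_
    rintro ⟨_, a, rfl⟩
    obtain ⟨b, hb⟩ := t2 a
    exact ⟨⟨_, b, rfl⟩, Subtype.ext
      ((hf _ _ _ (hf T _ _ (ht' ⟨_, b, rfl⟩))).trans (congrArg q hb.symm))⟩
  obtain ⟨f, f1, f2⟩ := ex y fun v w h => z1 (Subtype.ext (hf (ψ.comp φ) _ _ h))
  obtain ⟨f', g1, g2⟩ := ex ((φ : A →ₗ[K] A).comp y) fun v w h => z1 (Subtype.ext (hf ψ _ _ h))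
  obtain ⟨r, r1, r2⟩ := Function.bijective_iff_has_inverse.1 f1
  let σ := f'.comp (f.inverse r r1 r2)
  refine ⟨σ, g1.comp (Function.bijective_iff_has_inverse.2 ⟨f, r2, r1⟩), fun a ha => ?_⟩
  have key := nakayama hn (NonUnitalAlgHom.equalizer (σ.comp T) (φ.comp T)) (fun a => by
    obtain ⟨b, hb⟩ := t2 a
    rw [t3, t3] at hb
    let c := ψ.comp φ b
    let w : W := ⟨_, c, rfl⟩
    have e : T (a - (T c - T (t w))) = y w := by
      rw [map_sub, map_sub, hb, sub_sub_cancel]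
      rfl
    refine ⟨a - (T c - T (t w)), ?_, ?_⟩
    · change f' (r (T _)) = φ (T _)
      rw [e, ← f2, r1, g2, f2]
      rfl
    · rw [sub_sub_cancel]
      exact (hq _ _).1 (ht' w).symm) a
  have key' : σ (T a) = φ (T a) := key
  rwa [t1 a ha] at key'

theorem exists_support {ι : Type w} {x : ι → A} (hx : NonUnitalAlgebra.adjoin K (Set.range x) = ⊤)
    {β : Type} [Fintype β] (μ : β → A) : ∃ (k : ℕ) (e : Fin k → ι), Function.Injective e ∧
      ∀ j, μ j ∈ NonUnitalAlgebra.adjoin K (Set.range (x ∘ e)) := by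
  classical
  have k : ∀ a : A, ∃ I : Finset ι, a ∈ NonUnitalAlgebra.adjoin K (x '' I) := by
    intro a
    have ha : a ∈ NonUnitalAlgebra.adjoin K (Set.range x) := hx ▸ trivial
    have m : ∀ I J : Finset ι, I ⊆ J → NonUnitalAlgebra.adjoin K (x '' I) ≤
        NonUnitalAlgebra.adjoin K (x '' J) := fun I J h =>
      NonUnitalAlgebra.adjoin_mono (Set.image_mono h)
    induction ha using NonUnitalAlgebra.adjoin_induction with
    | mem a ha =>
      obtain ⟨i, rfl⟩ := ha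
      exact ⟨{i}, NonUnitalAlgebra.subset_adjoin K ⟨i, by simp, rfl⟩⟩
    | add a b _ _ iha ihb =>
      obtain ⟨I, hI⟩ := iha
      obtain ⟨J, hJ⟩ := ihb
      exact ⟨I ∪ J, add_mem (m _ _ Finset.subset_union_left hI) (m _ _ Finset.subset_union_right hJ)⟩
    | zero => exact ⟨∅, zero_mem _⟩
    | mul a b _ _ iha ihb =>
      obtain ⟨I, hI⟩ := iha
      obtain ⟨J, hJ⟩ := ihb
      exact ⟨I ∪ J, mul_mem (m _ _ Finset.subset_union_left hI) (m _ _ Finset.subset_union_right hJ)⟩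
    | smul d a _ iha =>
      obtain ⟨I, hI⟩ := iha
      exact ⟨I, SMulMemClass.smul_mem d hI⟩
  choose I hI using k
  let J := Finset.univ.biUnion fun j => I (μ j)
  refine ⟨J.card, fun i => J.equivFin.symm i, Subtype.val_injective.comp J.equivFin.symm.injective,
    fun j => NonUnitalAlgebra.adjoin_mono ?_ (hI (μ j))⟩
  rintro _ ⟨i, hi, rfl⟩
  exact ⟨J.equivFin ⟨i, Finset.mem_biUnion.2 ⟨j, Finset.mem_univ j, hi⟩⟩, by simp⟩

theorem hom_ext {B : Type w} [NonUnitalNonAssocRing B] [Module K B] {X : Set A}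
    {f g : A →ₙₐ[K] B} (h : ∀ a ∈ X, f a = g a) {a : A} (ha : a ∈ NonUnitalAlgebra.adjoin K X) :
    f a = g a :=
  NonUnitalAlgebra.adjoin_le (S := NonUnitalAlgHom.equalizer f g) h ha

theorem general_case {n : ℕ} (hn : naPow K A n = ⊥) {ι : Type w} {x : ι → A}
    (hx : NonUnitalAlgebra.adjoin K (Set.range x) = ⊤)
    (hl : ∀ y : ι → A, ∃ f : A →ₙₐ[K] A, ∀ i, f (x i) = y i) (φ ψ : A →ₙₐ[K] A) {m : ℕ}
    (μ ν : Fin m → A) (h1 : ∀ j, φ (μ j) = ν j) (h2 : ∀ j, ψ (ν j) = μ j) :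
    ∃ σ : A →ₙₐ[K] A, Function.Bijective σ ∧ ∀ j, σ (μ j) = ν j := by
  classical
  obtain ⟨k, e, he, hμ⟩ := exists_support hx (Sum.elim μ ν)
  set S := NonUnitalAlgebra.adjoin K (Set.range (x ∘ e)) with hS
  let x' : Fin k → S := fun i => ⟨x (e i), NonUnitalAlgebra.subset_adjoin K ⟨i, rfl⟩⟩
  let c : S →ₙₐ[K] A := NonUnitalSubalgebraClass.subtype S
  have top : ∀ a : A, a ∈ NonUnitalAlgebra.adjoin K (Set.range x) := fun a => hx ▸ trivial
  have hx' : NonUnitalAlgebra.adjoin K (Set.range x') = ⊤ := by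
    refine eq_top_iff.2 fun a _ => ?_
    obtain ⟨b, hb, e⟩ := NonUnitalAlgebra.adjoin_le
      (S := (NonUnitalAlgebra.adjoin K (Set.range x')).map c)
      (by rintro _ ⟨i, rfl⟩; exact ⟨x' i, NonUnitalAlgebra.subset_adjoin K ⟨i, rfl⟩, rfl⟩) a.2
    exact Subtype.ext e ▸ hb
  have hn' : naPow K S n = ⊥ := by
    refine eq_bot_iff.2 fun a ha => Subtype.ext ?_
    have := map_mem_naPow c n a ha
    rwa [hn] at this
  obtain ⟨π, hπ⟩ := hl (Function.extend e (x ∘ e) 0)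
  have p1 : ∀ a, π a ∈ S := fun a => NonUnitalAlgebra.adjoin_le (S := S.comap π) (by
    rintro _ ⟨i, rfl⟩
    change π (x i) ∈ S
    rw [hπ]
    by_cases hi : ∃ j, e j = i
    · obtain ⟨j, rfl⟩ := hi
      rw [he.extend_apply]
      exact (x' j).2
    · rw [Function.extend_apply' _ _ _ hi]
      exact zero_mem _) (top a)
  have p2 : ∀ a ∈ S, π a = a := fun a ha => hom_ext (g := NonUnitalAlgHom.id K A) (by
    rintro _ ⟨i, rfl⟩
    exact (hπ _).trans (he.extend_apply _ _ i)) ha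
  let res : (A →ₙₐ[K] A) → (S →ₙₐ[K] S) := fun f =>
    NonUnitalAlgHom.codRestrict ((π.comp f).comp c) S fun a => p1 _
  obtain ⟨σ, s1, s2⟩ := finite_case hn' hx' (fun y => by
    obtain ⟨f, hf⟩ := hl (Function.extend e (fun i => (y i : A)) 0)
    refine ⟨res f, fun i => Subtype.ext ?_⟩
    change π (f (x (e i))) = y i
    rw [hf, he.extend_apply, p2 _ (y i).2]) (res φ) (res ψ)
  have ext : ∀ g : S →ₙₐ[K] S, ∃ G : A →ₙₐ[K] A, (∀ a : S, G a = g a) ∧
      ∀ i, (¬ ∃ j, e j = i) → G (x i) = x i := by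
    intro g
    obtain ⟨G, hG⟩ := hl (Function.extend e (fun i => (g (x' i) : A)) x)
    refine ⟨G, fun a => hom_ext (f := G.comp c) (g := c.comp g) (X := Set.range x') ?_
      (hx' ▸ trivial), fun i hi => (hG i).trans (Function.extend_apply' _ _ _ hi)⟩
    rintro _ ⟨i, rfl⟩
    exact (hG _).trans (he.extend_apply _ _ i)
  have inv : ∀ (g g' : S → S) (G G' : A →ₙₐ[K] A), (∀ a : S, G a = g a) → (∀ a : S, G' a = g' a) →
      (∀ i, (¬ ∃ j, e j = i) → G (x i) = x i) → (∀ i, (¬ ∃ j, e j = i) → G' (x i) = x i) →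
      Function.LeftInverse g g' → Function.LeftInverse G G' := by
    intro g g' G G' a1 a2 a3 a4 a5 a
    refine hom_ext (f := G.comp G') (g := NonUnitalAlgHom.id K A) ?_ (top a)
    rintro _ ⟨i, rfl⟩
    change G (G' (x i)) = x i
    by_cases hi : ∃ j, e j = i
    · obtain ⟨j, rfl⟩ := hi
      rw [show x (e j) = x' j from rfl, a2, a1, a5]
    · rw [a4 i hi, a3 i hi]
  obtain ⟨r, r1, r2⟩ := Function.bijective_iff_has_inverse.1 s1
  obtain ⟨G, g1, g2⟩ := ext σ
  obtain ⟨G', g3, g4⟩ := ext (σ.inverse r r1 r2)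
  refine ⟨G, Function.bijective_iff_has_inverse.2
    ⟨G', inv r σ G' G g3 g1 g4 g2 r1, inv σ r G G' g1 g3 g2 g4 r2⟩, fun j => ?_⟩
  have b1 : π (φ (μ j)) = ν j := by rw [h1]; exact p2 _ (hμ (Sum.inr j))
  have b2 := s2 ⟨μ j, hμ (Sum.inl j)⟩ (Subtype.ext (by
    change π (ψ (π (φ (μ j)))) = μ j
    rw [b1, h2]
    exact p2 _ (hμ (Sum.inl j))))
  exact (g1 ⟨μ j, hμ (Sum.inl j)⟩).trans ((congrArg Subtype.val b2).trans b1)

theorem exists_term {k : ℕ} {x : Fin k → A} {a : A}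
    (ha : a ∈ NonUnitalAlgebra.adjoin K (Set.range x)) :
    ∃ t : (algLang K).Term (Fin k), ∀ f : A →ₙₐ[K] A, t.realize (fun i => f (x i)) = f a := by
  induction ha using NonUnitalAlgebra.adjoin_induction with
  | mem a ha =>
    obtain ⟨i, rfl⟩ := ha
    exact ⟨Term.var i, fun f => rfl⟩
  | add a b _ _ iha ihb =>
    obtain ⟨s, hs⟩ := iha
    obtain ⟨t, ht⟩ := ihb
    exact ⟨Term.func (l := 2) AlgFunc.add ![s, t], fun f => by rw [map_add, ← hs, ← ht]; rfl⟩
  | zero => exact ⟨Term.func (l := 0) AlgFunc.zero ![], fun f => (map_zero f).symm⟩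
  | mul a b _ _ iha ihb =>
    obtain ⟨s, hs⟩ := iha
    obtain ⟨t, ht⟩ := ihb
    exact ⟨Term.func (l := 2) AlgFunc.mul ![s, t], fun f => by rw [map_mul, ← hs, ← ht]; rfl⟩
  | smul d a _ iha =>
    obtain ⟨s, hs⟩ := iha
    exact ⟨Term.func (l := 1) (AlgFunc.smul d) ![s], fun f => by rw [map_smul, ← hs]; rfl⟩

theorem exists_end {ι : Type w} {x : ι → A} (hx : NonUnitalAlgebra.adjoin K (Set.range x) = ⊤)
    (hl : ∀ y : ι → A, ∃ f : A →ₙₐ[K] A, ∀ i, f (x i) = y i) {m : ℕ} {μ ν : Fin m → A}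
    (h : ppTp K A μ ⊆ ppTp K A ν) : ∃ φ : A →ₙₐ[K] A, ∀ j, φ (μ j) = ν j := by
  obtain ⟨k, e, he, hμ⟩ := exists_support hx μ
  choose t ht using fun j => exists_term (hμ j)
  have key : ∀ ρ : Fin m → A, (ppFormula (fun j => Term.var (Sum.inl j))
      fun j => (t j).relabel Sum.inr).Realize ρ ↔ ∃ y : Fin k → A, ∀ j, ρ j = (t j).realize y := by
    intro ρ
    simp only [ppFormula, Formula.realize_iExs, Formula.realize_iInf, Formula.realize_equal,
      Term.realize_var, Term.realize_relabel, Sum.elim_inl]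
    rfl
  obtain ⟨y, hy⟩ := (key ν).1 (h ⟨⟨_, _, _, _, rfl⟩,
    (key μ).2 ⟨x ∘ e, fun j => (ht j (NonUnitalAlgHom.id K A)).symm⟩⟩).2
  obtain ⟨f, hf⟩ := hl (Function.extend e y 0)
  refine ⟨f, fun j => ?_⟩
  rw [hy, ← ht j f]
  exact congrArg (fun v => (t j).realize v) (funext fun i => (hf _).trans (he.extend_apply _ _ i))

theorem pp_homogeneous {n : ℕ} (hn : naPow K A n = ⊥) {ι : Type w} {x : ι → A}
    (hx : NonUnitalAlgebra.adjoin K (Set.range x) = ⊤)
    (hl : ∀ y : ι → A, ∃ f : A →ₙₐ[K] A, ∀ i, f (x i) = y i) {m : ℕ} (μ ν : Fin m → A)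
    (h : ppTp K A μ = ppTp K A ν) :
    ∃ σ : A →ₙₐ[K] A, Function.Bijective σ ∧ ∀ j, σ (μ j) = ν j := by
  obtain ⟨φ, h1⟩ := exists_end hx hl h.le
  obtain ⟨ψ, h2⟩ := exists_end hx hl h.ge
  exact general_case hn hx hl φ ψ μ ν h1 h2

end Pool.Agent.MP_3d7de8_lc.PP
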