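import Pool.Agent.MP_3d7de8_lc.PPDefs

universe u v w

namespace Pool.Agent.MP_3d7de8_lc.PP

variable {K : Type u} [Field K] {A : Type v} [NonUnitalNonAssocRing A] [Module K A]

theorem naMul_le {P Q S : Submodule K A} (h : ∀ a ∈ P, ∀ b ∈ Q, a * b ∈ S) : naMul K A P Q ≤ S :=
  Submodule.span_le.2 fun _ ⟨a, ha, b, hb, e⟩ => e ▸ h a ha b hb

theorem mul_mem_naMul {P Q : Submodule K A} {a b : A} (ha : a ∈ P) (hb : b ∈ Q) :
    a * b ∈ naMul K A P Q :=
  Submodule.subset_span ⟨a, ha, b, hb, rfl⟩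

theorem mul_mem_naPow {i j k : ℕ} (e : i + j = k) {a b : A} (ha : a ∈ naPow K A (i + 1))
    (hb : b ∈ naPow K A (j + 1)) : a * b ∈ naPow K A (k + 2) := by
  rw [naPow]
  refine Submodule.mem_iSup_of_mem ⟨i, by omega⟩ (mul_mem_naMul ha ?_)
  rwa [show k + 1 - i = j + 1 by omega]

theorem naPow_le {k : ℕ} {S : Submodule K A} (h : ∀ i j, i + j = k → ∀ a ∈ naPow K A (i + 1),
    ∀ b ∈ naPow K A (j + 1), a * b ∈ S) : naPow K A (k + 2) ≤ S := by
  rw [naPow]
  refine iSup_le fun i => naMul_le fun a ha b hb => h i (k - i) (by omega) a ha b ?_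
  rwa [show k - i + 1 = k + 1 - i by omega]

theorem mem_one (a : A) : a ∈ naPow K A 1 := by
  rw [naPow]
  trivial

theorem mul_mem_two (a b : A) : a * b ∈ naPow K A 2 :=
  mul_mem_naPow (i := 0) (j := 0) rfl (mem_one a) (mem_one b)

theorem map_mem_naPow {B : Type w} [NonUnitalNonAssocRing B] [Module K B] (f : B →ₙₐ[K] A)
    (k : ℕ) : ∀ b ∈ naPow K B k, f b ∈ naPow K A k := by
  induction k using Nat.strong_induction_on with
  | _ k ih =>
    match k with
    | 0 => intro b _; rw [naPow]; trivial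
    | 1 => exact fun b _ => mem_one _
    | k + 2 =>
      refine naPow_le (S := (naPow K A (k + 2)).comap (f : B →ₗ[K] A)) fun i j e a ha b hb => ?_
      have := mul_mem_naPow e (ih _ (by omega) a ha) (ih _ (by omega) b hb)
      rwa [← map_mul] at this

theorem top_of_family {n : ℕ} (hn : naPow K A n = ⊥) (𝒰 : Submodule K A → Prop) (h0 : 𝒰 ⊥)
    (hs : ∀ U, 𝒰 U → ∀ U', 𝒰 U' → 𝒰 (U ⊔ U')) (hm : ∀ U U', 𝒰 U → 𝒰 U' → 𝒰 (naMul K A U U'))
    {U₁ : Submodule K A} (h1 : 𝒰 U₁) (h2 : U₁ ⊔ naPow K A 2 = ⊤) : 𝒰 ⊤ := by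
  have k1 : ∀ k, ∃ U, 𝒰 U ∧ U ≤ naPow K A (k + 1) ∧ naPow K A (k + 1) ≤ U ⊔ naPow K A (k + 2) := by
    intro k
    induction k using Nat.strong_induction_on with
    | _ k ih =>
      match k with
      | 0 => exact ⟨U₁, h1, fun a _ => mem_one a, h2 ▸ le_top⟩
      | k + 1 =>
        choose! U u1 u2 u3 using ih
        refine ⟨(Finset.range (k + 1)).sup fun i => naMul K A (U i) (U (k - i)),
          Finset.sup_induction h0 hs fun i hi => hm _ _ (u1 _ (Finset.mem_range.1 hi))
            (u1 _ (by omega)), Finset.sup_le fun i hi => naMul_le fun a ha b hb => ?_,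
          naPow_le fun i j e a ha b hb => ?_⟩
        · have hi := Finset.mem_range.1 hi
          exact mul_mem_naPow (by omega) (u2 i hi ha) (u2 (k - i) (by omega) hb)
        · obtain ⟨s, hs, a', ha', rfl⟩ := Submodule.mem_sup.1 (u3 i (by omega) ha)
          obtain ⟨t, ht, b', hb', e'⟩ := Submodule.mem_sup.1 (u3 j (by omega) hb)
          have : (s + a') * b = s * t + (s * b' + a' * b) := by
            rw [add_mul, ← add_assoc, ← mul_add, e']
          rw [this]
          refine Submodule.add_mem_sup (Finset.le_sup (f := fun i => naMul K A (U i) (U (k - i)))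
            (Finset.mem_range.2 (show i < k + 1 by omega)) (mul_mem_naMul hs ?_)) (add_mem ?_ ?_)
          · rwa [show k - i = j by omega]
          · exact mul_mem_naPow (by omega) (u2 i (by omega) hs) hb'
          · exact mul_mem_naPow (by omega) ha' hb
  have k2 : ∀ k, ∃ U, 𝒰 U ∧ U ⊔ naPow K A (k + 1) = ⊤ := by
    intro k
    induction k with
    | zero => exact ⟨⊥, h0, by simp [naPow]⟩
    | succ k ih =>
      obtain ⟨U, u1, u2⟩ := ih
      obtain ⟨U', v1, -, v3⟩ := k1 k
      exact ⟨U ⊔ U', hs _ u1 _ v1, by rw [eq_top_iff, ← u2, sup_assoc]; exact sup_le_sup_left v3 _⟩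
  cases n with
  | zero => rwa [← show (⊤ : Submodule K A) = ⊥ by rw [← hn, naPow]] at h0
  | succ n =>
    obtain ⟨U, u1, u2⟩ := k2 n
    rw [hn, sup_bot_eq] at u2
    exact u2 ▸ u1

theorem nakayama {n : ℕ} (hn : naPow K A n = ⊥) (S : NonUnitalSubalgebra K A)
    (h : ∀ a, ∃ s ∈ S, a - s ∈ naPow K A 2) (a : A) : a ∈ S := by
  refine top_of_family hn (fun U => U ≤ S.toSubmodule) bot_le (fun _ h _ h' => sup_le h h')
    (fun U U' h h' => naMul_le fun a ha b hb => S.mul_mem (h ha) (h' hb)) le_rfl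
    (eq_top_iff.2 fun a _ => ?_) Submodule.mem_top
  obtain ⟨s, hs, h⟩ := h a
  exact Submodule.mem_sup.2 ⟨s, hs, _, h, by abel⟩

variable [IsScalarTower K A A] [SMulCommClass K A A]

theorem span_sup {ι : Type w} {x : ι → A} (hx : NonUnitalAlgebra.adjoin K (Set.range x) = ⊤) :
    Submodule.span K (Set.range x) ⊔ naPow K A 2 = ⊤ := by
  refine eq_top_iff.2 fun a _ => ?_
  have ha : a ∈ NonUnitalAlgebra.adjoin K (Set.range x) := hx ▸ trivial
  induction ha using NonUnitalAlgebra.adjoin_induction with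
  | mem a ha => exact Submodule.mem_sup_left (Submodule.subset_span ha)
  | add a b _ _ iha ihb => exact add_mem (iha trivial) (ihb trivial)
  | zero => exact zero_mem _
  | mul a b _ _ _ _ => exact Submodule.mem_sup_right (mul_mem_two a b)
  | smul d a _ iha => exact Submodule.smul_mem _ d (iha trivial)

theorem finite_of_nil {n : ℕ} (hn : naPow K A n = ⊥) {ι : Type w} [Finite ι] {x : ι → A}
    (hx : NonUnitalAlgebra.adjoin K (Set.range x) = ⊤) : FiniteDimensional K A := by
  refine ⟨top_of_family hn Submodule.FG Submodule.fg_bot (fun _ h _ h' => h.sup h')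
    (fun U U' h h' => ?_) (Submodule.fg_span (Set.finite_range x)) (span_sup hx)⟩
  have e : naMul K A U U' = Submodule.map₂ (LinearMap.mul K A) U U' :=
    le_antisymm (naMul_le fun a ha b hb => Submodule.apply_mem_map₂ (LinearMap.mul K A) ha hb)
      (Submodule.map₂_le.2 fun a ha b hb => mul_mem_naMul ha hb)
  exact e ▸ h.map₂ _ h'

end Pool.Agent.MP_3d7de8_lc.PP
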